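import Pool.Agent.Lib.MP_6bc78b_nt.MS.GL.H23.Db1

/-! Project MS, Part GL, module DB2: the main diagonal sum. -/

set_option autoImplicit false

open Complex Filter Topology MeasureTheory ArithmeticFunction

namespace Pool.Agent.Lib.MP_6bc78b_nt.MS.GL.H62

open Pool.Agent.Lib.MP_6bc78b_nt.MS Pool.Agent.Lib.MP_6bc78b_nt.MS.P1
open Pool.Agent.Lib.MP_6bc78b_nt.MS.QZ Pool.Agent.Lib.MP_6bc78b_nt.MS.GL
open Pool.Agent.Lib.MP_6bc78b_nt.MS.QZ.H76.Lam
open Pool.Agent.Lib.MP_6bc78b_nt.MS.GL.H23.Db1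

namespace Db2

lemma fac_aux (p i v : ℕ) (hp : p.Prime) (hv0 : v ≠ 0) (hv : ¬ p ∣ v) :
    (p ^ i * v).factorization p = i := by
  have h0 : p ^ i ≠ 0 := pow_ne_zero _ hp.ne_zero
  rw [Nat.factorization_mul h0 hv0, Finsupp.add_apply, hp.factorization_pow,
    Finsupp.single_eq_same, Nat.factorization_eq_zero_of_not_dvd hv, add_zero]

/-- Two decompositions of a number that is not composed of primes of `S` agree. -/
lemma uniq (S : Finset ℕ) (n : ℕ) (hn : n ≠ 0) (hS : ¬ n.primeFactors ⊆ S) (x x' : ℕ × ℕ)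
    (hx : x.1 * x.2 = n) (hx' : x'.1 * x'.2 = n) (h1 : IsPrimePow x.1) (h1' : IsPrimePow x'.1)
    (h2 : x.2.primeFactors ⊆ S) (h2' : x'.2.primeFactors ⊆ S) : x = x' := by
  obtain ⟨p, i, hp, hi, hpi⟩ := h1
  obtain ⟨q, j, hq, hj, hqj⟩ := h1'
  have hp' : p.Prime := hp.nat_prime
  have hq' : q.Prime := hq.nat_prime
  have hu0 : x.1 ≠ 0 := by
    intro h
    rw [h, zero_mul] at hx
    exact hn hx.symm
  have hv0 : x.2 ≠ 0 := by
    intro h
    rw [h, mul_zero] at hx
    exact hn hx.symm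
  have hu0' : x'.1 ≠ 0 := by
    intro h
    rw [h, zero_mul] at hx'
    exact hn hx'.symm
  have hv0' : x'.2 ≠ 0 := by
    intro h
    rw [h, mul_zero] at hx'
    exact hn hx'.symm
  have hpS : p ∉ S := by
    intro hpS
    apply hS
    rw [← hx, Nat.primeFactors_mul hu0 hv0, ← hpi, Nat.primeFactors_prime_pow hi.ne' hp']
    exact Finset.union_subset (Finset.singleton_subset_iff.2 hpS) h2
  have hpv : ¬ p ∣ x.2 := fun h => hpS (h2 (Nat.mem_primeFactors.2 ⟨hp', h, hv0⟩))
  have hpv' : ¬ p ∣ x'.2 := fun h => hpS (h2' (Nat.mem_primeFactors.2 ⟨hp', h, hv0'⟩))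
  have hpn : p ∣ x'.1 * x'.2 := by
    rw [hx', ← hx, ← hpi]
    exact Dvd.dvd.mul_right (dvd_pow_self p hi.ne') _
  have hpq : p = q := by
    rcases hp'.dvd_mul.1 hpn with h | h
    · rw [← hqj] at h
      exact (Nat.prime_dvd_prime_iff_eq hp' hq').1 (hp'.dvd_of_dvd_pow h)
    · exact absurd h hpv'
  rw [← hpq] at hqj
  have e1 : n.factorization p = i := by
    rw [← hx, ← hpi]
    exact fac_aux p i x.2 hp' hv0 hpv
  have e2 : n.factorization p = j := by
    rw [← hx', ← hqj]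
    exact fac_aux p j x'.2 hp' hv0' hpv'
  have e3 : x.1 = x'.1 := by
    rw [← hpi, ← hqj, ← e1, ← e2]
  have e4 : x.2 = x'.2 := by
    rw [e3] at hx
    exact Nat.eq_of_mul_eq_mul_left (Nat.pos_of_ne_zero hu0') (hx.trans hx'.symm)
  exact Prod.ext e3 e4

/-- The product of two convolutions at a number that is not composed of primes of `S`. -/
lemma prod_eq (S : Finset ℕ) (F G P Q : ArithmeticFunction ℝ)
    (hF : ∀ u, F u ≠ 0 → IsPrimePow u) (hG : ∀ u, G u ≠ 0 → IsPrimePow u)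
    (hP : ∀ v, P v ≠ 0 → v.primeFactors ⊆ S) (hQ : ∀ v, Q v ≠ 0 → v.primeFactors ⊆ S)
    (n : ℕ) (hn : n ≠ 0) (hS : ¬ n.primeFactors ⊆ S) :
    (F * P) n * (G * Q) n =
      ∑ x ∈ n.divisorsAntidiagonal, F x.1 * G x.1 * (Q x.2 * P x.2) := by
  rw [ArithmeticFunction.mul_apply, ArithmeticFunction.mul_apply, Finset.sum_mul_sum]
  apply Finset.sum_congr rfl
  intro x hx
  rw [Finset.sum_eq_single x]
  · ring
  · intro x' hx' hne
    by_contra h
    have h1 : F x.1 ≠ 0 := left_ne_zero_of_mul (left_ne_zero_of_mul h)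
    have h2 : P x.2 ≠ 0 := right_ne_zero_of_mul (left_ne_zero_of_mul h)
    have h3 : G x'.1 ≠ 0 := left_ne_zero_of_mul (right_ne_zero_of_mul h)
    have h4 : Q x'.2 ≠ 0 := right_ne_zero_of_mul (right_ne_zero_of_mul h)
    exact hne (uniq S n hn hS x' x (Nat.mem_divisorsAntidiagonal.1 hx').1
      (Nat.mem_divisorsAntidiagonal.1 hx).1 (hG _ h3) (hF _ h1) (hQ _ h4) (hP _ h2))
  · intro h
    exact absurd hx h

/-- Sums over divisors and double sums, when the support is contained in the region. -/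
lemma double_eq (A B : ℕ → ℝ) (N : ℕ) (h : ∀ u v, A u ≠ 0 → B v ≠ 0 → u * v ≤ N) :
    ∑ n ∈ Finset.Icc 1 N, ∑ x ∈ n.divisorsAntidiagonal, A x.1 * B x.2 =
      (∑ u ∈ Finset.Icc 1 N, A u) * ∑ v ∈ Finset.Icc 1 N, B v := by
  classical
  have hd : (↑(Finset.Icc 1 N) : Set ℕ).PairwiseDisjoint (fun n => n.divisorsAntidiagonal) := by
    intro n _ m _ hnm
    rw [Function.onFun, Finset.disjoint_left]
    intro x hx hx'
    exact hnm ((Nat.mem_divisorsAntidiagonal.1 hx).1.symm.trans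
      (Nat.mem_divisorsAntidiagonal.1 hx').1)
  rw [← Finset.sum_biUnion hd, Finset.sum_mul_sum, ← Finset.sum_product']
  apply Finset.sum_subset
  · intro x hx
    obtain ⟨n, hn, hx⟩ := Finset.mem_biUnion.1 hx
    obtain ⟨h1, h2⟩ := Nat.mem_divisorsAntidiagonal.1 hx
    have hnN := (Finset.mem_Icc.1 hn).2
    have hu : 0 < x.1 := Nat.pos_of_ne_zero (by
      intro h
      rw [h, zero_mul] at h1
      exact h2 h1.symm)
    have hv : 0 < x.2 := Nat.pos_of_ne_zero (by
      intro h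
      rw [h, mul_zero] at h1
      exact h2 h1.symm)
    have hu' : x.1 ≤ n := h1 ▸ Nat.le_mul_of_pos_right _ hv
    have hv' : x.2 ≤ n := h1 ▸ Nat.le_mul_of_pos_left _ hu
    exact Finset.mem_product.2 ⟨Finset.mem_Icc.2 ⟨hu, hu'.trans hnN⟩,
      Finset.mem_Icc.2 ⟨hv, hv'.trans hnN⟩⟩
  · intro x hx hx'
    by_contra hne
    obtain ⟨h1, h2⟩ := Finset.mem_product.1 hx
    have hu := (Finset.mem_Icc.1 h1).1
    have hv := (Finset.mem_Icc.1 h2).1
    have hle := h x.1 x.2 (left_ne_zero_of_mul hne) (right_ne_zero_of_mul hne)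
    have hpos : 0 < x.1 * x.2 := Nat.mul_pos hu hv
    apply hx'
    refine Finset.mem_biUnion.2 ⟨x.1 * x.2, Finset.mem_Icc.2 ⟨hpos, hle⟩, ?_⟩
    exact Nat.mem_divisorsAntidiagonal.2 ⟨rfl, hpos.ne'⟩

/-- The splitting of the main diagonal sum. -/
lemma split (S : Finset ℕ) (F G P Q : ArithmeticFunction ℝ) (N : ℕ)
    (hF : ∀ u, F u ≠ 0 → IsPrimePow u) (hG : ∀ u, G u ≠ 0 → IsPrimePow u)
    (hP : ∀ v, P v ≠ 0 → v.primeFactors ⊆ S) (hQ : ∀ v, Q v ≠ 0 → v.primeFactors ⊆ S)
    (h : ∀ u v, G u ≠ 0 → Q v ≠ 0 → u * v ≤ N) :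
    ∑ n ∈ Finset.Icc 1 N, (F * P) n * (G * Q) n / (n : ℝ) =
      ∑ n ∈ (Finset.Icc 1 N).filter (fun n => n.primeFactors ⊆ S),
        (F * P) n * (G * Q) n / (n : ℝ) +
      (∑ u ∈ Finset.Icc 1 N, F u * G u / (u : ℝ) -
        ∑ u ∈ (Finset.Icc 1 N).filter (fun u => u.primeFactors ⊆ S), F u * G u / (u : ℝ)) *
      ∑ v ∈ Finset.Icc 1 N, Q v * P v / (v : ℝ) := by
  classical
  rw [← Finset.sum_filter_add_sum_filter_not (Finset.Icc 1 N) (fun n => n.primeFactors ⊆ S)]
  congr 1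
  set A : ℕ → ℝ := fun u => if u.primeFactors ⊆ S then 0 else F u * G u / (u : ℝ) with hA
  set B : ℕ → ℝ := fun v => Q v * P v / (v : ℝ) with hB
  have e1 : ∑ u ∈ Finset.Icc 1 N, F u * G u / (u : ℝ) -
        ∑ u ∈ (Finset.Icc 1 N).filter (fun u => u.primeFactors ⊆ S), F u * G u / (u : ℝ) =
      ∑ u ∈ Finset.Icc 1 N, A u := by
    rw [Finset.sum_filter, ← Finset.sum_sub_distrib]
    apply Finset.sum_congr rfl
    intro u _
    rw [hA]
    dsimp only
    split_ifs
    · ring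
    · ring
  rw [e1, ← double_eq A B N, Finset.sum_filter]
  · apply Finset.sum_congr rfl
    intro n hn
    have hn0 : n ≠ 0 := by
      have := (Finset.mem_Icc.1 hn).1
      omega
    by_cases hS : n.primeFactors ⊆ S
    · rw [if_neg (not_not.2 hS)]
      symm
      apply Finset.sum_eq_zero
      intro x hx
      have h1 := (Nat.mem_divisorsAntidiagonal.1 hx).1
      have h2 : x.1.primeFactors ⊆ S :=
        (Nat.primeFactors_mono ⟨x.2, h1.symm⟩ hn0).trans hS
      rw [hA]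
      dsimp only
      rw [if_pos h2, zero_mul]
    · rw [if_pos hS, prod_eq S F G P Q hF hG hP hQ n hn0 hS, Finset.sum_div]
      apply Finset.sum_congr rfl
      intro x hx
      have h1 := (Nat.mem_divisorsAntidiagonal.1 hx).1
      rw [hA, hB]
      dsimp only
      by_cases hPx : P x.2 = 0
      · rw [hPx]
        simp
      · have hv : x.2.primeFactors ⊆ S := hP _ hPx
        have hu0 : x.1 ≠ 0 := by
          intro h
          rw [h, zero_mul] at h1
          exact hn0 h1.symm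
        have hv0 : x.2 ≠ 0 := by
          intro h
          rw [h, mul_zero] at h1
          exact hn0 h1.symm
        have hu : ¬ x.1.primeFactors ⊆ S := by
          intro hu
          apply hS
          rw [← h1, Nat.primeFactors_mul hu0 hv0]
          exact Finset.union_subset hu hv
        have h3 : (n : ℝ) = (x.1 : ℝ) * (x.2 : ℝ) := by
          rw [← h1]
          push_cast
          ring
        rw [if_neg hu, h3, div_mul_div_comm]
  · intro u v hu hv
    apply h
    · intro h0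
      apply hu
      rw [hA]
      dsimp only
      rw [h0]
      simp
    · intro h0
      apply hv
      rw [hB]
      dsimp only
      rw [h0]
      simp

/-- The facts on the scales that hold for all large `T`. -/
lemma facts (lam δ C1 : ℝ) (a : ℕ) (hlam : 0 < lam) (hδ : 0 < δ) (hld : lam < 1 - δ)
    (hR1 : ∀ y : ℝ, 2 ≤ y → |rs (prs 1 y) - Real.log (Real.log y)| ≤ C1) :
    ∀ᶠ T : ℝ in atTop, 3 < T ∧ 4 ≤ ll T ∧ 3 ≤ yy T 0 ∧ 1 ≤ rs (SS T 0) ∧
      rs (SS T 0) ≤ 2 * ll T ∧ |rs (SS T 0) - (ll T - 2 * Real.log (ll T))| ≤ C1 ∧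
      yy T 0 ^ a * T ^ lam ≤ T ^ (1 - δ) := by
  have hC1 : 0 ≤ C1 := (abs_nonneg _).trans (hR1 2 le_rfl)
  have hdl : Tendsto (fun T : ℝ => (1 / ll T ^ 2) * (a : ℝ)) atTop (𝓝 (0 * (a : ℝ))) := by
    apply Tendsto.mul_const
    simp only [one_div]
    exact tendsto_inv_atTop_zero.comp ((tendsto_pow_atTop (by norm_num)).comp ll_tendsto)
  rw [zero_mul] at hdl
  filter_upwards [eventually_gt_atTop (3 : ℝ),
      ll_tendsto.eventually_ge_atTop (4 + C1 + 2 * C1), ll_tendsto.eventually log_quarter,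
      hdl.eventually_le_const (show (0 : ℝ) < 1 - δ - lam by linarith)]
    with T h1 h5 h6 h7
  have hSS : SS T 0 = prs 1 (yy T 0) := rfl
  rw [hSS]
  have hT0' : 0 < T := by linarith
  have hT1 : 1 < T := by linarith
  have hT1' : 1 ≤ T := by linarith
  have hll : 4 ≤ ll T := by linarith
  have hll0 : 0 < ll T := by linarith
  have hll1 : 1 ≤ ll T := by linarith
  have hLpos : 0 < Real.log T := Real.log_pos hT1
  have hlogy : Real.log (yy T 0) = Real.log T / ll T ^ 2 := log_yy T hT0'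
  have hlogy0 : 0 < Real.log (yy T 0) := by
    rw [hlogy]
    positivity
  have hllogy : Real.log (Real.log (yy T 0)) = ll T - 2 * Real.log (ll T) := loglog_yy T hT1 hll0
  have hloglow : 2 ≤ Real.log (yy T 0) := by
    have e1 : ll T / 2 ≤ Real.log (Real.log (yy T 0)) := by
      rw [hllogy]
      linarith
    have e2 : Real.exp (Real.log (Real.log (yy T 0))) = Real.log (yy T 0) := Real.exp_log hlogy0
    have e3 := Real.add_one_le_exp (Real.log (Real.log (yy T 0)))
    rw [e2] at e3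
    linarith
  have hy3 : 3 ≤ yy T 0 := by
    have hy0 : 0 < yy T 0 := by
      unfold yy
      exact Real.rpow_pos_of_pos hT0' _
    have e3 := Real.add_one_le_exp (Real.log (yy T 0))
    rw [Real.exp_log hy0] at e3
    linarith
  have hrb' := hR1 (yy T 0) (by linarith)
  rw [hllogy] at hrb'
  have hrb := abs_le.1 hrb'
  have hloglog0 : 0 ≤ Real.log (ll T) := Real.log_nonneg hll1
  refine ⟨h1, hll, hy3, ?_, ?_, hrb', ?_⟩
  · have := hrb.1
    linarith
  · have := hrb.2
    linarith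
  · rw [yy_pow T hT0', dl0, ← Real.rpow_add hT0']
    apply Real.rpow_le_rpow_of_exponent_le hT1'
    linarith

/-- The power of the first scale. -/
lemma pow_min (a b : ℕ) (r x : ℝ) (hr : 0 ≤ r) (hx : 1 ≤ x) (hrx : r ≤ 2 * x) :
    r ^ (min b a) ≤ 2 ^ (min b a) * Real.sqrt x ^ (a + b) := by
  have e1 : x ^ (min b a) ≤ Real.sqrt x ^ (a + b) := by
    calc x ^ (min b a) = Real.sqrt x ^ (2 * min b a) := by
          rw [pow_mul, Real.sq_sqrt (by linarith)]
      _ ≤ Real.sqrt x ^ (a + b) :=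
          pow_le_pow_right₀ (Real.one_le_sqrt.2 hx) (by omega)
  calc r ^ (min b a) ≤ (2 * x) ^ (min b a) := by gcongr
    _ = 2 ^ (min b a) * x ^ (min b a) := mul_pow _ _ _
    _ ≤ _ := by gcongr

lemma inv_ll (K : ℝ) : Tendsto (fun T : ℝ => K / ll T ^ 4) atTop (𝓝 0) :=
  ((tendsto_pow_atTop (by norm_num)).comp ll_tendsto).const_div_atTop K

/-- `r / ll T → 1`. -/
lemma ratio (C1 : ℝ) (h : ∀ᶠ T : ℝ in atTop, 4 ≤ ll T ∧
    |rs (SS T 0) - (ll T - 2 * Real.log (ll T))| ≤ C1) :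
    Tendsto (fun T : ℝ => rs (SS T 0) / ll T) atTop (𝓝 1) := by
  have h1 : Tendsto (fun T : ℝ => C1 / ll T + 2 * (Real.log (ll T) / ll T)) atTop (𝓝 0) := by
    have e1 : Tendsto (fun T : ℝ => C1 / ll T) atTop (𝓝 0) := ll_tendsto.const_div_atTop C1
    have e2 : Tendsto (fun x : ℝ => Real.log x / x) atTop (𝓝 0) := by
      have := Real.isLittleO_log_id_atTop.tendsto_div_nhds_zero
      exact this
    have e3 := (e2.comp ll_tendsto).const_mul 2
    have e4 := e1.add e3
    rw [mul_zero, add_zero] at e4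
    exact e4
  have h2 : Tendsto (fun T : ℝ => rs (SS T 0) / ll T - 1) atTop (𝓝 0) := by
    apply squeeze_zero_norm' _ h1
    filter_upwards [h] with T hT
    obtain ⟨hl, hb⟩ := hT
    have hl0 : 0 < ll T := by linarith
    have e0 : rs (SS T 0) / ll T - 1 =
        (rs (SS T 0) - (ll T - 2 * Real.log (ll T))) / ll T - 2 * (Real.log (ll T) / ll T) := by
      field_simp
      ring
    have e5 : 0 ≤ Real.log (ll T) / ll T := div_nonneg (Real.log_nonneg (by linarith)) hl0.le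
    rw [Real.norm_eq_abs, e0]
    refine (abs_sub _ _).trans ?_
    rw [abs_div, abs_of_pos hl0, abs_of_nonneg (by positivity : 0 ≤ 2 * (Real.log (ll T) / ll T))]
    gcongr
  have h3 := h2.add_const 1
  rw [zero_add] at h3
  refine h3.congr (fun T => ?_)
  ring

/-- The limit of the diagonal sum. -/
lemma diag (hD : DiaStatement) (lam δ C1 : ℝ) (a b : ℕ) (hV : VnuStatement) (hlam : 0 < lam)
    (hf : ∀ᶠ T : ℝ in atTop, 3 < T ∧ 4 ≤ ll T ∧ 3 ≤ yy T 0 ∧ 1 ≤ rs (SS T 0) ∧
      rs (SS T 0) ≤ 2 * ll T ∧ |rs (SS T 0) - (ll T - 2 * Real.log (ll T))| ≤ C1 ∧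
      yy T 0 ^ a * T ^ lam ≤ T ^ (1 - δ)) :
    Tendsto (fun T : ℝ => (∑ v ∈ Finset.Icc 1 ⌊T ^ (1 - δ)⌋₊, (pS (SS T 0) ^ a) v *
      (pS (SS T 0) ^ b) v / (v : ℝ)) / Real.sqrt (ll T) ^ (a + b)) atTop
      (𝓝 (if a = b then (a.factorial : ℝ) else 0)) := by
  by_cases hab : a = b
  · subst hab
    rw [if_pos rfl]
    obtain ⟨C, hC, h1⟩ := hD.2 a
    have hr := ratio C1 (hf.mono (fun T hT => ⟨hT.2.1, hT.2.2.2.2.2.1⟩))
    have hr' : Tendsto (fun T : ℝ => rs (SS T 0)) atTop atTop := by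
      have e := hr.pos_mul_atTop one_pos ll_tendsto
      refine e.congr' ?_
      filter_upwards [hf] with T hT
      have hl0 : ll T ≠ 0 := by
        have := hT.2.1
        intro h
        linarith
      field_simp
    have e1 : Tendsto (fun T : ℝ => (a.factorial : ℝ) * (rs (SS T 0) / ll T) ^ a) atTop
        (𝓝 (a.factorial : ℝ)) := by
      have := (hr.pow a).const_mul (a.factorial : ℝ)
      rwa [one_pow, mul_one] at this
    have e2 : Tendsto (fun T : ℝ => C * (rs (SS T 0) / ll T) ^ a / rs (SS T 0)) atTop (𝓝 0) := by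
      have := ((hr.pow a).const_mul C).div_atTop hr'
      exact this
    have e3 : Tendsto (fun T : ℝ => (∑ v ∈ Finset.Icc 1 ⌊T ^ (1 - δ)⌋₊, (pS (SS T 0) ^ a) v *
        (pS (SS T 0) ^ a) v / (v : ℝ)) / Real.sqrt (ll T) ^ (a + a) -
        (a.factorial : ℝ) * (rs (SS T 0) / ll T) ^ a) atTop (𝓝 0) := by
      apply squeeze_zero_norm' _ e2
      filter_upwards [hf] with T hT
      obtain ⟨f1, f2, f3, f4, f5, f6, f7⟩ := hT
      have hl0 : 0 < ll T := by linarith
      have hN : ∀ n, (pS (SS T 0) ^ a) n ≠ 0 → n ≤ ⌊T ^ (1 - δ)⌋₊ := by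
        intro n hn
        apply Nat.le_floor
        have g1 := pS_pow_supp hV (yy T 0) (by linarith) a n hn
        have g2 : (1 : ℝ) ≤ T ^ lam := Real.one_le_rpow (by linarith) hlam.le
        have g3 : 0 ≤ yy T 0 ^ a := by positivity
        calc (n : ℝ) ≤ yy T 0 ^ a := g1
          _ ≤ yy T 0 ^ a * T ^ lam := le_mul_of_one_le_right g3 g2
          _ ≤ _ := f7
      have g := h1 (SS T 0) ⌊T ^ (1 - δ)⌋₊ (isPr_prs 1 _) f4 hN
      have hs : Real.sqrt (ll T) ^ (a + a) = ll T ^ a := by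
        rw [← two_mul, pow_mul, Real.sq_sqrt hl0.le]
      have hla : 0 < ll T ^ a := by positivity
      rw [Real.norm_eq_abs, hs]
      have g4 : (∑ v ∈ Finset.Icc 1 ⌊T ^ (1 - δ)⌋₊, (pS (SS T 0) ^ a) v *
          (pS (SS T 0) ^ a) v / (v : ℝ)) / ll T ^ a -
          (a.factorial : ℝ) * (rs (SS T 0) / ll T) ^ a =
          ((∑ v ∈ Finset.Icc 1 ⌊T ^ (1 - δ)⌋₊, (pS (SS T 0) ^ a) v *
          (pS (SS T 0) ^ a) v / (v : ℝ)) - (a.factorial : ℝ) * rs (SS T 0) ^ a) / ll T ^ a := by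
        rw [div_pow]
        ring
      rw [g4, abs_div, abs_of_pos hla]
      calc _ ≤ (C * rs (SS T 0) ^ a / rs (SS T 0)) / ll T ^ a := by gcongr
        _ = _ := by
          rw [div_pow]
          ring
    have e4 := e3.add e1
    rw [zero_add] at e4
    refine e4.congr (fun T => ?_)
    ring
  · rw [if_neg hab]
    refine tendsto_const_nhds.congr (fun T => ?_)
    rw [hD.1 (SS T 0) a b _ hab, zero_div]

end Db2

open Db2 in
/-- DB2: the main diagonal sum. -/
theorem db2 (hV : VnuStatement) (hD : DiaStatement) (hA : La2Statement)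
    (hP : PrimeSumStatement) (hR : Mr2Statement) : Db2Statement := by
  classical
  intro lam δ a b hlam hδ hld
  obtain ⟨C1, hC1, hR1, -, -⟩ := hR
  obtain ⟨K1, hK1, hA1⟩ := hA b a
  obtain ⟨K0, hK0, hA0⟩ := hA 0 0
  have hlam1 : lam < 1 := by linarith
  have hPl := hP.1 lam hlam hlam1
  have hf := facts lam δ C1 a hlam hδ hld hR1
  have hdiag := diag hD lam δ C1 a b hV hlam hf
  set E1 : ℝ → ℝ := fun T => ∑ n ∈ (Finset.Icc 1 ⌊T ^ (1 - δ)⌋₊).filter
    (fun n => n.primeFactors ⊆ SS T 0), (La * pS (SS T 0) ^ b) n *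
      (bb lam T * pS (SS T 0) ^ a) n / (n : ℝ) with hE1
  set E2 : ℝ → ℝ := fun T => ∑ u ∈ (Finset.Icc 1 ⌊T ^ (1 - δ)⌋₊).filter
    (fun u => u.primeFactors ⊆ SS T 0), La u * bb lam T u / (u : ℝ) with hE2
  set PP : ℝ → ℝ := fun T => ∑ k ∈ Finset.Icc 1 ⌊T ^ lam⌋₊, La k * bb lam T k / (k : ℝ) with hPP
  set D : ℝ → ℝ := fun T => ∑ v ∈ Finset.Icc 1 ⌊T ^ (1 - δ)⌋₊, (pS (SS T 0) ^ a) v *
      (pS (SS T 0) ^ b) v / (v : ℝ) with hDD
  -- the two error terms
  have hb1 : ∀ᶠ T : ℝ in atTop, |E1 T / (Real.log T * Real.sqrt (ll T) ^ (a + b))| ≤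
      (K1 * 2 ^ (min b a) / lam) / ll T ^ 4 := by
    filter_upwards [hf] with T hT
    obtain ⟨f1, f2, f3, f4, f5, f6, f7⟩ := hT
    have hT1 : 1 < T := by linarith
    have hL : 0 < Real.log T := Real.log_pos hT1
    have hl0 : 0 < ll T := by linarith
    have hll : 0 < lam * Real.log T := by positivity
    have hsq : 0 < Real.sqrt (ll T) ^ (a + b) := by positivity
    have hpa0 : ∀ n, 0 ≤ (pS (SS T 0) ^ a) n := pS_pow_nonneg hV _ _
    have hpb0 : ∀ n, 0 ≤ (pS (SS T 0) ^ b) n := pS_pow_nonneg hV _ _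
    have hg0 : ∀ n, 0 ≤ (La * pS (SS T 0) ^ b) n := mul_nonneg' _ _ La_nonneg hpb0
    have hf0 : ∀ n, 0 ≤ (bb lam T * pS (SS T 0) ^ a) n :=
      mul_nonneg' _ _ (fun n => (bb_bounds lam T hT1 hlam n).1) hpa0
    have hf1 : ∀ n, (bb lam T * pS (SS T 0) ^ a) n ≤ (La * pS (SS T 0) ^ a) n /
        (lam * Real.log T) :=
      mono_conv _ _ _ _ (fun n => (bb_bounds lam T hT1 hlam n).2) hpa0
    have h0 : 0 ≤ E1 T := Finset.sum_nonneg (fun n _ =>
      div_nonneg (mul_nonneg (hg0 n) (hf0 n)) (Nat.cast_nonneg _))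
    have h1 : E1 T ≤ (K1 * Real.log (yy T 0) ^ 2 * rs (SS T 0) ^ (min b a)) /
        (lam * Real.log T) := by
      calc E1 T ≤ ∑ n ∈ (Finset.Icc 1 ⌊T ^ (1 - δ)⌋₊).filter
            (fun n => n.primeFactors ⊆ SS T 0), ((La * pS (SS T 0) ^ b) n *
            (La * pS (SS T 0) ^ a) n / (n : ℝ)) / (lam * Real.log T) := by
            apply Finset.sum_le_sum
            intro n _
            calc (La * pS (SS T 0) ^ b) n * (bb lam T * pS (SS T 0) ^ a) n / (n : ℝ)
                ≤ (La * pS (SS T 0) ^ b) n * ((La * pS (SS T 0) ^ a) n /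
                  (lam * Real.log T)) / (n : ℝ) := by
                  have := hg0 n
                  have := hf1 n
                  gcongr
              _ = _ := by ring
        _ = (∑ n ∈ (Finset.Icc 1 ⌊T ^ (1 - δ)⌋₊).filter
            (fun n => n.primeFactors ⊆ SS T 0), (La * pS (SS T 0) ^ b) n *
            (La * pS (SS T 0) ^ a) n / (n : ℝ)) / (lam * Real.log T) :=
            (Finset.sum_div _ _ _).symm
        _ ≤ _ := by
            gcongr
            exact hA1 (yy T 0) _ f3 f4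
    have h2 : rs (SS T 0) ^ (min b a) ≤ 2 ^ (min b a) * Real.sqrt (ll T) ^ (a + b) :=
      pow_min a b _ _ (by linarith) (by linarith) f5
    have h3 : E1 T ≤ (K1 * Real.log (yy T 0) ^ 2 * (2 ^ (min b a) *
        Real.sqrt (ll T) ^ (a + b))) / (lam * Real.log T) := h1.trans (by gcongr)
    rw [abs_of_nonneg (by positivity), div_le_iff₀ (by positivity)]
    refine h3.trans (le_of_eq ?_)
    rw [log_yy T (by linarith)]
    field_simp
  have hb2 : ∀ᶠ T : ℝ in atTop, |E2 T / Real.log T| ≤ (K0 / lam) / ll T ^ 4 := by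
    filter_upwards [hf] with T hT
    obtain ⟨f1, f2, f3, f4, f5, f6, f7⟩ := hT
    have hT1 : 1 < T := by linarith
    have hL : 0 < Real.log T := Real.log_pos hT1
    have hl0 : 0 < ll T := by linarith
    have hll : 0 < lam * Real.log T := by positivity
    have hbb := bb_bounds lam T hT1 hlam
    have h0 : 0 ≤ E2 T := Finset.sum_nonneg (fun n _ =>
      div_nonneg (mul_nonneg (La_nonneg n) (hbb n).1) (Nat.cast_nonneg _))
    have h1 : E2 T ≤ (K0 * Real.log (yy T 0) ^ 2) / (lam * Real.log T) := by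
      have g := hA0 (yy T 0) ⌊T ^ (1 - δ)⌋₊ f3 f4
      rw [min_self, pow_zero, pow_zero, mul_one, mul_one] at g
      calc E2 T ≤ ∑ n ∈ (Finset.Icc 1 ⌊T ^ (1 - δ)⌋₊).filter
            (fun n => n.primeFactors ⊆ SS T 0), (La n * La n / (n : ℝ)) / (lam * Real.log T) := by
            apply Finset.sum_le_sum
            intro n _
            calc La n * bb lam T n / (n : ℝ) ≤ La n * (La n / (lam * Real.log T)) / (n : ℝ) := by
                  have := La_nonneg n
                  have := (hbb n).2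
                  gcongr
              _ = _ := by ring
        _ = (∑ n ∈ (Finset.Icc 1 ⌊T ^ (1 - δ)⌋₊).filter
            (fun n => n.primeFactors ⊆ SS T 0), La n * La n / (n : ℝ)) / (lam * Real.log T) :=
            (Finset.sum_div _ _ _).symm
        _ ≤ _ := by
            gcongr
            exact g
    rw [abs_of_nonneg (by positivity), div_le_iff₀ hL]
    refine h1.trans (le_of_eq ?_)
    rw [log_yy T (by linarith)]
    field_simp
  have hl1 : Tendsto (fun T => E1 T / (Real.log T * Real.sqrt (ll T) ^ (a + b))) atTop (𝓝 0) :=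
    squeeze_zero_norm' hb1 (inv_ll _)
  have hl2 : Tendsto (fun T => E2 T / Real.log T) atTop (𝓝 0) :=
    squeeze_zero_norm' hb2 (inv_ll _)
  -- the splitting
  have hsplit : ∀ᶠ T : ℝ in atTop, (∑ n ∈ Finset.Icc 1 ⌊T ^ (1 - δ)⌋₊, (La * pS (SS T 0) ^ b) n *
      (bb lam T * pS (SS T 0) ^ a) n / (n : ℝ)) = E1 T + (PP T - E2 T) * D T := by
    filter_upwards [hf] with T hT
    obtain ⟨f1, f2, f3, f4, f5, f6, f7⟩ := hT
    have hT1 : 1 < T := by linarith
    have hbs : ∀ u, bb lam T u ≠ 0 → (u : ℝ) ≤ T ^ lam := by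
      intro u hu
      by_contra hc
      apply hu
      show bbf lam T u = 0
      unfold bbf
      rw [if_neg hc]
    have hbp : ∀ u, bb lam T u ≠ 0 → IsPrimePow u := by
      intro u hu
      apply ArithmeticFunction.vonMangoldt_ne_zero_iff.1
      intro h0
      apply hu
      show bbf lam T u = 0
      unfold bbf
      rw [h0]
      simp
    have e := split (SS T 0) La (bb lam T) (pS (SS T 0) ^ b) (pS (SS T 0) ^ a)
      ⌊T ^ (1 - δ)⌋₊ (fun u hu => ArithmeticFunction.vonMangoldt_ne_zero_iff.1 hu) hbp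
      (fun v hv => (pS_pow_ne hV _ _ _ hv).2.1) (fun v hv => (pS_pow_ne hV _ _ _ hv).2.1)
      (by
        intro u v hu hv
        apply Nat.le_floor
        have g1 := hbs u hu
        have g2 := pS_pow_supp hV (yy T 0) (by linarith) a v hv
        push_cast
        calc (u : ℝ) * (v : ℝ) = (v : ℝ) * (u : ℝ) := mul_comm _ _
          _ ≤ yy T 0 ^ a * T ^ lam := by gcongr
          _ ≤ _ := f7)
    have e2 : PP T = ∑ u ∈ Finset.Icc 1 ⌊T ^ (1 - δ)⌋₊, La u * bb lam T u / (u : ℝ) := by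
      rw [hPP]
      dsimp only
      apply Finset.sum_subset
      · apply Finset.Icc_subset_Icc_right
        apply Nat.floor_le_floor
        exact Real.rpow_le_rpow_of_exponent_le hT1.le hld.le
      · intro u hu hu'
        have : bb lam T u = 0 := by
          by_contra h0
          exact hu' (Finset.mem_Icc.2 ⟨(Finset.mem_Icc.1 hu).1, Nat.le_floor (hbs u h0)⟩)
        rw [this]
        simp
    rw [e, e2]
  have hfin : Tendsto (fun T => E1 T / (Real.log T * Real.sqrt (ll T) ^ (a + b)) +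
      (PP T / Real.log T - E2 T / Real.log T) * (D T / Real.sqrt (ll T) ^ (a + b))) atTop
      (𝓝 (0 + (lam / 6 - 0) * (if a = b then (a.factorial : ℝ) else 0))) :=
    hl1.add ((hPl.sub hl2).mul hdiag)
  rw [zero_add, sub_zero] at hfin
  refine hfin.congr' ?_
  filter_upwards [hsplit, hf] with T hT hfT
  obtain ⟨f1, f2, f3, f4, f5, f6, f7⟩ := hfT
  have hL : Real.log T ≠ 0 := (Real.log_pos (by linarith)).ne'
  have hs : Real.sqrt (ll T) ^ (a + b) ≠ 0 := by
    have : 0 < ll T := by linarith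
    positivity
  rw [hT]
  field_simp

end Pool.Agent.Lib.MP_6bc78b_nt.MS.GL.H62
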